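import Mathlib
import Pool.Agent.Lib.MP_4cc90a_co.JoinPreserving
import Pool.Agent.Lib.MP_4cc90a_co.H.Tri

set_option autoImplicit false

namespace Pool.Agent.Results.MP_4cc90a_co.BothFail

open Pool.Agent.Lib.MP_4cc90a_co.H
open Pool.Agent.Lib.MP_4cc90a_co.JoinPreserving (ChainWord Rel)

theorem run_chain {x z : Lt} {w : List {s : Lt // IsAtom s}} (h : ChainWord col x z w)
    (σ : Fin 21) : run (potT σ x) w = potT σ z := by
  induction h with
  | nil x => rfl
  | cons hxy _ ih =>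
    rw [← ih, ← pot_step _ _ hxy σ]
    simp only [run, List.foldl_cons, col, atm, idx_atm]

theorem run_con {u v : FreeMonoid {s : Lt // IsAtom s}} (h : conGen (Rel col) u v) :
    ∀ σ, run σ u.toList = run σ v.toList := by
  induction h with
  | of u v h =>
    obtain ⟨s, t, p, q, hp, hq, rfl, rfl⟩ := h
    intro σ
    have h1 := run_chain (ChainWord.cons (bot_covBy_iff.mpr s.2) hp) σ
    have h2 := run_chain (ChainWord.cons (bot_covBy_iff.mpr t.2) hq) σ
    rw [pot_bot] at h1 h2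
    exact h1.trans h2.symm
  | refl => exact fun _ => rfl
  | symm _ ih => exact fun σ => (ih σ).symm
  | trans _ _ ih ih' => exact fun σ => (ih σ).trans (ih' σ)
  | mul _ _ ih ih' =>
    intro σ
    rw [FreeMonoid.toList_mul, FreeMonoid.toList_mul, run_append, run_append, ih, ih']

/-- The state reached by an element of the monoid. -/
def state (m : PresentedMonoid (Rel col)) : Fin 21 :=
  Quotient.liftOn m (fun u => run 0 u.toList) fun _ _ h => run_con h 0

theorem reach_mul (m n : PresentedMonoid (Rel col)) : reachT (state m) (state (m * n)) = 1 := by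
  induction m with | _ u
  induction n with | _ v
  rw [← map_mul]
  change reachT (run 0 u.toList) (run 0 (u * v).toList) = 1
  rw [FreeMonoid.toList_mul, run_append]
  exact reach_run _ _ _ (reach_refl _)

/-- The generators. -/
def gen (i : Fin 7) : PresentedMonoid (Rel col) := PresentedMonoid.of _ (atm i)

theorem rel2 (i j : Fin 7) (h1 : atomEl i ⋖ atomEl i ⊔ atomEl j)
    (h2 : atomEl j ⋖ atomEl i ⊔ atomEl j) :
    gen (colT ⊥ (atomEl i)) * gen (colT (atomEl i) (atomEl i ⊔ atomEl j)) =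
      gen (colT ⊥ (atomEl j)) * gen (colT (atomEl j) (atomEl i ⊔ atomEl j)) :=
  PresentedMonoid.mk_eq_mk_of_rel ⟨atm i, atm j, _, _, ChainWord.cons h1 (ChainWord.nil _),
    ChainWord.cons h2 (ChainWord.nil _), rfl, rfl⟩

theorem result :
    ∃ (L : Type) (_ : Fintype L) (_ : Lattice L) (_ : BoundedOrder L) (rk : L → ℕ)
      (c : L → L → {s : L // IsAtom s}),
      rk ⊥ = 0 ∧ (∀ x y : L, x ⋖ y → rk y = rk x + 1) ∧
      IsLUB {s : L | IsAtom s} ⊤ ∧
      (∀ s : {s : L // IsAtom s}, c ⊥ s.1 = s) ∧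
      (∀ x : L, x ≠ ⊥ → x ≠ ⊤ → ∃ z : L, IsLUB {y : L | x ⋖ y} z ∧
        ∃ φ : Set.Icc x z ↪o L, (∀ u : Set.Icc x z, rk (φ u) + rk x = rk u.1) ∧
          ∀ u v : Set.Icc x z, u.1 ⋖ v.1 → φ u ⋖ φ v ∧ c (φ u) (φ v) = c u.1 v.1) ∧
      (∃ a u v : PresentedMonoid (Rel c), a * u = a * v ∧ u ≠ v) ∧
      ∃ u v : PresentedMonoid (Rel c), ¬ ∃ d : PresentedMonoid (Rel c),
        (∃ w, u = d * w) ∧ (∃ w, v = d * w) ∧
        ∀ d' : PresentedMonoid (Rel c), (∃ w, u = d' * w) → (∃ w, v = d' * w) →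
          ∃ w, d = d' * w := by
  refine ⟨Lt, inferInstance, inferInstance, inferInstance, rkT, col, rfl, rk_cov,
    ⟨fun _ _ => le_top, fun u hu => atoms_lub u fun s hs => hu hs⟩,
    fun s => Subtype.ext (col_bot s.1 s.2), fun x h0 h1 => ⟨topT x,
      ⟨fun y hy => top_ub x h0 h1 y hy, fun u hu => top_least x h0 h1 u fun y hy => hu hy⟩,
      OrderEmbedding.ofMapLEIff (fun u => phiT x u.1)
        (fun u v => phi_le x h0 h1 u.1 u.2.1 u.2.2 v.1 v.2.1 v.2.2),
      fun u => phi_rk x h0 h1 u.1 u.2.1 u.2.2, fun u v huv => ?_⟩, ?_⟩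
  · obtain ⟨a, b⟩ := phi_col x h0 h1 u.1 u.2.1 u.2.2 v.1 v.2.1 v.2.2 huv
    exact ⟨a, congrArg atm b⟩
  have r1 : gen 0 * gen 3 = gen 1 * gen 3 := rel2 0 1 (by decide +kernel) (by decide +kernel)
  have r2 : gen 1 * gen 4 = gen 2 * gen 4 := rel2 1 2 (by decide +kernel) (by decide +kernel)
  have r3 : gen 2 * gen 5 = gen 0 * gen 6 := rel2 2 0 (by decide +kernel) (by decide +kernel)
  have r4 : gen 3 * gen 5 = gen 4 * gen 5 := rel2 3 4 (by decide +kernel) (by decide +kernel)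
  have r5 : gen 4 * gen 5 = gen 5 * gen 5 := rel2 4 5 (by decide +kernel) (by decide +kernel)
  have r6 : gen 5 * gen 6 = gen 6 * gen 6 := rel2 5 6 (by decide +kernel) (by decide +kernel)
  have e1 : gen 0 * (gen 3 * gen 5) = gen 2 * gen 5 * gen 5 := by
    rw [← mul_assoc, r1, mul_assoc, r4, ← mul_assoc, r2, mul_assoc, r5, mul_assoc]
  refine ⟨⟨gen 0, gen 3 * gen 5, gen 6 * gen 5, by rw [e1, r3, mul_assoc], fun h => ?_⟩,
    gen 0 * (gen 3 * gen 5), gen 0 * (gen 5 * gen 6), ?_⟩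
  · have h' : (8 : Fin 21) = 9 := congrArg state h
    exact absurd h' (by decide)
  rintro ⟨d, ⟨w₁, h₁⟩, ⟨w₂, h₂⟩, hd⟩
  obtain ⟨w₃, h₃⟩ := hd (gen 2 * gen 5) ⟨_, e1⟩ ⟨gen 6, by rw [r6, r3, mul_assoc]⟩
  obtain ⟨w₄, h₄⟩ := hd (gen 0 * gen 5) ⟨gen 5, by rw [r4, r5, mul_assoc]⟩
    ⟨gen 6, (mul_assoc _ _ _).symm⟩
  have a1 := reach_mul d w₁
  have a2 := reach_mul d w₂
  have a3 := reach_mul (gen 2 * gen 5) w₃
  have a4 := reach_mul (gen 0 * gen 5) w₄
  rw [← h₁] at a1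
  rw [← h₂] at a2
  rw [← h₃] at a3
  rw [← h₄] at a4
  exact reach_final (state d) a3 a4 a1 a2

end Pool.Agent.Results.MP_4cc90a_co.BothFail
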