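import Mathlib
import Pool.Agent.Lib.MP_4cc90a_co.JoinPreserving
import Pool.Agent.Lib.MP_4cc90a_co.H.Iff

set_option autoImplicit false

namespace Pool.Agent.Results.MP_4cc90a_co.JoinIff

open Pool.Agent.Lib.MP_4cc90a_co.H
open Pool.Agent.Lib.MP_4cc90a_co.JoinPreserving

theorem result {L : Type} [Fintype L] [Lattice L] [BoundedOrder L] (rk : L → ℕ)
    (c : L → L → {s : L // IsAtom s}) (h0 : rk ⊥ = 0) (h1 : ∀ x y : L, x ⋖ y → rk y = rk x + 1)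
    (hc : ∀ s : {s : L // IsAtom s}, c ⊥ s.1 = s)
    (z : L → L) (hz : ∀ x : L, x ≠ ⊥ → x ≠ ⊤ → IsLUB {y : L | x ⋖ y} (z x))
    (φ : ∀ x : L, x ≠ ⊥ → x ≠ ⊤ → Set.Icc x (z x) ↪o L)
    (hrk : ∀ (x : L) (hb : x ≠ ⊥) (ht : x ≠ ⊤) (u : Set.Icc x (z x)),
      rk (φ x hb ht u) + rk x = rk u.1)
    (hcol : ∀ (x : L) (hb : x ≠ ⊥) (ht : x ≠ ⊤) (u v : Set.Icc x (z x)), u.1 ⋖ v.1 →
      φ x hb ht u ⋖ φ x hb ht v ∧ c (φ x hb ht u) (φ x hb ht v) = c u.1 v.1) :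
    (∀ (x : L) (hb : x ≠ ⊥) (ht : x ≠ ⊤) (u v w : Set.Icc x (z x)), x ⋖ u.1 → x ⋖ v.1 →
      w.1 = u.1 ⊔ v.1 → φ x hb ht w = φ x hb ht u ⊔ φ x hb ht v) ↔
    ((∀ a u v : PresentedMonoid (Rel c), a * u = a * v → u = v) ∧
      (∀ u v : PresentedMonoid (Rel c), ∃ d : PresentedMonoid (Rel c),
        (∃ w, u = d * w) ∧ (∃ w, v = d * w) ∧ ∀ d' : PresentedMonoid (Rel c),
          (∃ w, u = d' * w) → (∃ w, v = d' * w) → ∃ w, d = d' * w) ∧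
      ∃ ι : L → PresentedMonoid (Rel c),
        (∀ x p, ChainWord c ⊥ x p → ι x = PresentedMonoid.mk (Rel c) (FreeMonoid.ofList p)) ∧
        (∀ x y, x ≤ y ↔ ∃ w, ι y = ι x * w) ∧
        ∀ x y m, (∃ w, m = ι x * w) → (∃ w, m = ι y * w) → ∃ w, m = ι (x ⊔ y) * w) := by
  constructor
  · intro hJ
    have H : Ok c rk := ⟨h1, hc, fun {x y y' p} a a' hp => by
      rcases eq_or_ne x ⊥ with rfl | x0
      · rwa [hc ⟨y, bot_covBy_iff.1 a⟩, hc ⟨y', bot_covBy_iff.1 a'⟩]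
      have x1 := a.lt.ne_top
      have k := hz x x0 x1
      have e := color_eq (φ x x0 x1) h0 h1 hc (hrk x x0 x1) (hcol x x0 x1)
      have e1 := e ⟨y, a.le, k.1 a⟩ a
      have e2 := e ⟨y', a'.le, k.1 a'⟩ a'
      rw [e1, e2, ← hJ x x0 x1 _ _
        ⟨y ⊔ y', a.le.trans le_sup_left, sup_le (k.1 a) (k.1 a')⟩ a a' rfl]
      exact chain_map _ (hcol x x0 x1) hp _ _⟩
    exact ⟨H.cancel, H.gcd, I c ⊥, fun _ _ h => H.I_eq h, H.le_iff, lcm_of_ok H⟩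
  · rintro ⟨-, -, ι, hι, -, hl⟩ x x0 x1 u v w a a' hw
    have e := color_eq (φ x x0 x1) h0 h1 hc (hrk x x0 x1) (hcol x x0 x1)
    have k := rk_join_le h0 h1 hc ι hι hl a a'
    rw [e u a, e v a', ← hw] at k
    have k2 := hrk x x0 x1 w
    refine (eq_of_le_of_rk c h1 (sup_le ?_ ?_) (by omega)).symm
    · exact (φ x x0 x1).monotone (show u.1 ≤ w.1 from hw ▸ le_sup_left)
    · exact (φ x x0 x1).monotone (show v.1 ≤ w.1 from hw ▸ le_sup_right)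

end Pool.Agent.Results.MP_4cc90a_co.JoinIff
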